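import Pool.Agent.TH984.GE.Ineq
import Pool.Agent.TH984.GE.Final

/-!
# The unbalanced Rogers–Shephard inequality (MP_0078d6_gt)

From the starting proof of Godbersen's inequality (`Pool.Agent.TH984.GE12.ineq`) and the starting
lower bound for `a Δ - b Δ` (`Pool.Agent.TH984.GBS.t_SIMPLEX`).
-/

set_option autoImplicit false

open MeasureTheory Set Multiset Module
open scoped Pointwise NNReal RealInnerProductSpace

noncomputable section

namespace Pool.Agent.J4H55.URS

open Pool.Agent.TH650.MV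

/-- The mixed volume expansion of `|a K + b (-K)|`. -/
theorem expansion {n : ℕ} {K : Set (EuclideanSpace ℝ (Fin n))} (hK : IsCompact K)
    (hc : Convex ℝ K) (hi : (interior K).Nonempty) :
    ∃ W : ℕ → ℝ, ∀ a b : ℝ, 0 ≤ a → 0 ≤ b → (volume (a • K + b • (-K))).toReal =
      ∑ i ∈ Finset.range (n + 1), (n.choose i : ℝ) * W i * a ^ i * b ^ (n - i) := by
  let B : ConvexBody (EuclideanSpace ℝ (Fin n)) := ⟨K, hc, hK, hi.mono interior_subset⟩
  have hBK : (B : Set (EuclideanSpace ℝ (Fin n))) = K := rfl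
  have hfin : finrank ℝ (EuclideanSpace ℝ (Fin n)) = n := by simp
  refine ⟨fun i => V volume (replicate i B + replicate (n - i) ((-1 : ℝ) • B)), ?_⟩
  intro a b ha hb
  lift a to ℝ≥0 using ha
  lift b to ℝ≥0 using hb
  have h1 := Pool.Agent.TH984.GE12.vl_two (volume : Measure (EuclideanSpace ℝ (Fin n))) B
    ((-1 : ℝ) • B) a b
  rw [hfin] at h1
  refine Eq.trans ?_ h1
  unfold vl
  have hneg : (-1 : ℝ) • K = -K := by
    ext x
    constructor
    · rintro ⟨y, hy, rfl⟩
      simpa using hy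
    · intro hx
      exact ⟨-x, hx, by simp⟩
  rw [ConvexBody.coe_add, ConvexBody.coe_smul', ConvexBody.coe_smul', ConvexBody.coe_smul, hBK,
    hneg]
  rfl

/-- `|a K - b K| ≤ |a Δ - b Δ|` for a simplex `Δ` with `|Δ| = |K|`, here written with `|Δ|` on
the right-hand side replaced by the value of `|K|`. -/
theorem main {n : ℕ} {K : Set (EuclideanSpace ℝ (Fin n))} (hK : IsCompact K)
    (hc : Convex ℝ K) (hi : (interior K).Nonempty) {v : Fin (n + 1) → EuclideanSpace ℝ (Fin n)}
    (hv : AffineIndependent ℝ v) (hvol : volume (convexHull ℝ (Set.range v)) = volume K)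
    {a b : ℝ} (ha : 0 ≤ a) (hb : 0 ≤ b) :
    volume (a • K - b • K) ≤
      volume (a • convexHull ℝ (Set.range v) - b • convexHull ℝ (Set.range v)) := by
  obtain ⟨W, hW⟩ := expansion hK hc hi
  have hKf : volume K ≠ ⊤ := hK.measure_lt_top.ne
  have e : a • K - b • K = a • K + b • (-K) := by
    rw [sub_eq_add_neg, Set.smul_set_neg]
  have hcomp : IsCompact (a • K - b • K) := by
    rw [sub_eq_add_neg]
    exact (hK.smul a).add (hK.smul b).neg
  have hs := Pool.Agent.TH984.GBS.t_SIMPLEX n v hv a b ha hb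
  rw [hvol] at hs
  refine le_trans ?_ hs
  rw [← ENNReal.ofReal_toReal hcomp.measure_lt_top.ne, ← ENNReal.ofReal_toReal hKf,
    ← ENNReal.ofReal_mul (Finset.sum_nonneg fun i _ => by positivity)]
  apply ENNReal.ofReal_le_ofReal
  rw [e, hW a b ha hb, Finset.sum_mul]
  apply Finset.sum_le_sum
  intro i hi'
  have hin : i ≤ n := by
    have := Finset.mem_range.1 hi'
    omega
  have h1 := (Pool.Agent.TH984.GE12.ineq n K hK hc hi W hW i hin).1
  have h2 : (0 : ℝ) ≤ (n.choose i : ℝ) * (a ^ i * b ^ (n - i)) := by positivity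
  calc (n.choose i : ℝ) * W i * a ^ i * b ^ (n - i)
      = ((n.choose i : ℝ) * (a ^ i * b ^ (n - i))) * W i := by ring
    _ ≤ ((n.choose i : ℝ) * (a ^ i * b ^ (n - i))) * ((n.choose i : ℝ) * (volume K).toReal) :=
        mul_le_mul_of_nonneg_left h1 h2
    _ = _ := by ring

end Pool.Agent.J4H55.URS
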